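import Pool.Agent.Helper71.CH.Basic
import Pool.Agent.Helper61.CH.Weights
import Pool.Agent.Helper87.CH.Cost
import Pool.Agent.Helper45.CG.Select
import Pool.Agent.Helper72.CG.Keep
import Pool.Agent.Helper7.CG.Count

/-!
# Project CH, module CH-F: the selection of generation `j`
-/

set_option autoImplicit false

namespace Pool.Agent.Helper75.CG

open scoped Classical
open Finset
open Pool.Agent.Helper65.CliqueGame

namespace Setup

variable {V Δ : Type} [Fintype V] [Fintype Δ] (X : Setup V Δ)

/-- the structures compatible with the selections in the districts of `F` -/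
noncomputable def stepSs (j : ℕ) (Y : Δ → Finset V) (F : Finset Δ) (Z : Δ → Finset V) :
    Finset (Finset V) :=
  (X.SSt j Y).filter (fun S => ∀ δ ∈ F, X.part S δ = ∅ ∨ X.part S δ = Z δ)

/-- the number of selected blocks -/
noncomputable def stepSn (F : Finset Δ) (Z : Δ → Finset V) (S : Finset V) : ℕ :=
  (F.filter (fun δ => X.part S δ = Z δ)).card

/-- the capacities during the selection -/
noncomputable def stepSc (c : ℝ) (G : Finset V → ℝ) (j : ℕ) (F : Finset Δ) (Z : Δ → Finset V)
    (S : Finset V) : ℝ :=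
  capOf c G (X.wS j) S * (X.NN j : ℝ) ^ (X.stepSn F Z S)

theorem stepS_inter_dset (S : Finset V) (δ : Δ) : S ∩ X.dset δ = X.part S δ := by
  ext x
  simp [dset, part]

theorem stepS_part_union (S T : Finset V) (δ : Δ) : X.part (S ∪ T) δ = X.part S δ ∪ X.part T δ := by
  unfold part
  exact filter_union _ _ _

theorem stepS_part_part (S : Finset V) (δ : Δ) : X.part (X.part S δ) δ = X.part S δ := by
  unfold part
  rw [filter_filter]
  simp

theorem stepS_part_part_ne (S : Finset V) {δ δ' : Δ} (h : δ ≠ δ') : X.part (X.part S δ) δ' = ∅ := by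
  unfold part
  rw [filter_filter, filter_eq_empty_iff]
  rintro x - ⟨h1, h2⟩
  exact h (h1.symm.trans h2)

theorem stepS_part_sub (S : Finset V) (δ : Δ) : X.part S δ ⊆ S := filter_subset _ _

theorem stepS_part_of_sub {Y : Finset V} {δ : Δ} (h : Y ⊆ X.dset δ) : X.part Y δ = Y := by
  unfold part
  rw [filter_eq_self]
  intro x hx
  exact (mem_filter.1 (h hx)).2

theorem stepS_part_of_sub_ne {Y : Finset V} {δ δ' : Δ} (h : Y ⊆ X.dset δ) (hne : δ ≠ δ') :
    X.part Y δ' = ∅ := by
  unfold part
  rw [filter_eq_empty_iff]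
  intro x hx h1
  exact hne ((mem_filter.1 (h hx)).2.symm.trans h1)

/-- One selection. -/
theorem stepS_one {n : ℕ} (emb : V ↪ Fin n) {G : Finset V → ℝ} {ν E : ℝ} {zm D : ℕ}
    (hX : X.Sz G ν E zm D) {c : ℝ} (hc : 0 < c) {j : ℕ} (hj : j < X.R) {Y : Δ → Finset V}
    {φ : Finset V → ℝ} {M B : Finset (Sym2 (Fin n))} (hI : X.Inv emb j Y (X.fpS j) φ M B)
    (F : Finset Δ) (Z : Δ → Finset V) (φ' : Finset V → ℝ) (h0 : ∀ A, 0 ≤ φ' A)
    (hφ : ∀ A, φ' A ≠ 0 → φ A ≠ 0) (hF : ∀ δ ∈ F, X.gen δ = j)
    (hZ : ∀ δ ∈ F, Z δ ⊆ X.dset δ ∧ (Z δ).card = X.m)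
    (hs : ∀ A, φ' A ≠ 0 → ∀ δ ∈ F, X.part A δ = ∅ ∨ X.part A δ = Z δ)
    {δ₀ : Δ} (hδ : X.gen δ₀ = j) (hδF : δ₀ ∉ F) :
    ∃ (W : Finset V) (φ'' : Finset V → ℝ), W ⊆ X.dset δ₀ ∧ W.card = X.m ∧ (∀ A, 0 ≤ φ'' A) ∧
      (∀ A, φ'' A ≠ 0 → φ' A ≠ 0 ∧ (X.part A δ₀ = ∅ ∨ X.part A δ₀ = W)) ∧
      PP (X.stepSs j Y F Z) φ' (X.stepSc c G j F Z) - ν * (c * E * (1 / 2) ^ (X.y j)) ≤
        PP (X.stepSs j Y (insert δ₀ F) (Function.update Z δ₀ W)) φ''
          (X.stepSc c G j (insert δ₀ F) (Function.update Z δ₀ W)) := by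
  have hm := X.hm
  have hNN : (0 : ℝ) < X.NN j := by exact_mod_cast X.NN_pos j
  have hbs : X.bs j = X.m := if_pos hj
  have hw : ∀ S, 0 < X.wS j S := fun S => X.wS_pos j S
  have hcap : ∀ S, 0 < X.stepSc c G j F Z S := by
    intro S
    unfold stepSc capOf
    have h1 := hX.pos S
    have h2 := hw S
    positivity
  obtain ⟨φ1, h1a, h1b, h1c⟩ := delete (SS := X.stepSs j Y F Z) h0 hcap
  have hφ1 : ∀ A, φ1 A ≠ 0 → φ' A ≠ 0 := by
    intro A hA
    rcases h1a A with h2 | h2
    · rw [← h2]
      exact hA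
    · exact absurd h2 hA
  have hadm : ∀ A, φ1 A ≠ 0 → X.Adm A ∧ X.Sel j Y A := fun A hA => hI.supp A (hφ A (hφ1 A hA))
  have hcd : (X.dset δ₀).card = 2 ^ X.z j := by
    have := X.card_dis δ₀
    rw [hδ] at this
    exact this
  have hchoose : (X.dset δ₀).card.choose X.m = X.NN j := by
    rw [hcd]
    unfold NN
    rw [hbs]
  have hneF : ∀ δ ∈ F, δ₀ ≠ δ := fun δ hδ' h => hδF (h ▸ hδ')
  have hA : ∀ A, φ1 A ≠ 0 → A ∩ X.dset δ₀ = ∅ ∨ (A ∩ X.dset δ₀).card = X.m := by
    intro A hA
    rw [stepS_inter_dset]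
    rcases (hadm A hA).1.1 δ₀ with h2 | h2
    · exact Or.inl (card_eq_zero.1 h2)
    · right
      rw [h2, hδ, hbs]
  have hSl : ∀ A, φ1 A ≠ 0 → ∀ S ∈ X.stepSs j Y F Z, S ⊆ A → S ∩ X.dset δ₀ = ∅ →
      A ∩ X.dset δ₀ ≠ ∅ → S ∪ (A ∩ X.dset δ₀) ∈ X.stepSs j Y F Z ∧
        ((X.dset δ₀).card.choose X.m : ℝ) * X.stepSc c G j F Z (S ∪ (A ∩ X.dset δ₀)) ≤
          ν * X.stepSc c G j F Z S := by
    intro A hφA S hS hSA hSd hAd
    have hcard : (X.part A δ₀).card = X.m := by
      rcases hA A hφA with h2 | h2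
      · exact absurd h2 hAd
      · rwa [stepS_inter_dset] at h2
    rw [stepS_inter_dset] at hSd hAd ⊢
    set T := S ∪ X.part A δ₀ with hT
    have hTA : T ⊆ A := union_subset hSA (X.stepS_part_sub A δ₀)
    have hST : S ⊆ T := subset_union_left
    unfold stepSs SSt at hS
    simp only [mem_filter] at hS
    obtain ⟨⟨hS0, hSsel⟩, hSF⟩ := hS
    have hSne : S.Nonempty := by
      unfold SS0 at hS0
      exact (mem_filter.1 hS0).2.1
    have hT0 : T ∈ X.SS0 := X.mem_SS0_of_adm (hadm A hφA).1 hTA (hSne.mono hST)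
    have hpne : ∀ δ, δ₀ ≠ δ → X.part T δ = X.part S δ := by
      intro δ hne
      rw [hT, stepS_part_union, X.stepS_part_part_ne A hne, union_empty]
    have hp0 : X.part T δ₀ = X.part A δ₀ := by
      rw [hT, stepS_part_union, hSd, empty_union, stepS_part_part]
    have hgne : ∀ δ, X.gen δ < j → δ₀ ≠ δ := by
      intro δ h2 h3
      rw [← h3, hδ] at h2
      exact lt_irrefl _ h2
    refine ⟨?_, ?_⟩
    · unfold stepSs SSt
      simp only [mem_filter]
      refine ⟨⟨hT0, fun δ h2 => ?_⟩, fun δ h2 => ?_⟩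
      · rw [hpne δ (hgne δ h2)]
        exact hSsel δ h2
      · rw [hpne δ (hneF δ h2)]
        exact hSF δ h2
    · have hcount : X.stepSn F Z T = X.stepSn F Z S := by
        unfold stepSn
        congr 1
        apply filter_congr
        intro δ h2
        rw [hpne δ (hneF δ h2)]
      have hcompl : X.compl S T = ∅ := by
        unfold compl
        rw [filter_eq_empty_iff]
        rintro δ - ⟨h2, h3, h4⟩
        by_cases h5 : δ₀ = δ
        · subst h5
          rw [hSd] at h2
          exact not_nonempty_empty h2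
        · rw [hpne δ h5] at h4
          omega
      have hss : S ⊂ T := by
        refine Finset.ssubset_iff_subset_ne.2 ⟨hST, fun h2 => hAd ?_⟩
        rw [← hp0, ← h2, hSd]
      have hslope := hX.slope S hS0 T hT0 hss
      rw [hcompl, prod_empty, mul_one] at hslope
      have hff : X.ff j S + 1 ≤ X.ff j T := by
        unfold ff
        have h2 : insert δ₀ (univ.filter (fun δ => X.gen δ = j ∧ (X.part S δ).card = X.bs j)) ⊆
            univ.filter (fun δ => X.gen δ = j ∧ (X.part T δ).card = X.bs j) := by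
          intro δ h3
          rw [mem_insert] at h3
          rw [mem_filter]
          refine ⟨mem_univ _, ?_⟩
          rcases h3 with h3 | h3
          · rw [h3, hp0, hcard, hbs]
            exact ⟨hδ, rfl⟩
          · rw [mem_filter] at h3
            obtain ⟨-, h4, h5⟩ := h3
            refine ⟨h4, ?_⟩
            have h6 : δ₀ ≠ δ := by
              intro h7
              rw [← h7, hSd, card_empty, hbs] at h5
              omega
            rw [hpne δ h6]
            exact h5
        have h3 := card_le_card h2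
        rw [card_insert_of_notMem] at h3
        · exact h3
        · rw [mem_filter]
          rintro ⟨-, -, h5⟩
          rw [hSd, card_empty, hbs] at h5
          omega
      have hwT : X.wT j S ≤ X.wT j T := by
        have h2 := X.wT_mono hj hT0 hST (by rw [hcompl]; intro δ h3; exact absurd h3 (notMem_empty δ))
        rw [hcompl, prod_empty, one_mul] at h2
        exact h2
      have hNN1 : (1 : ℝ) ≤ X.NN j := by exact_mod_cast X.NN_pos j
      have hwS : (X.NN j : ℝ) * X.wS j S ≤ X.wS j T := by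
        rw [X.wS_eq, X.wS_eq]
        calc (X.NN j : ℝ) * ((X.NN j : ℝ) ^ X.ff j S * X.wT j S) =
            (X.NN j : ℝ) ^ (X.ff j S + 1) * X.wT j S := by rw [pow_succ]; ring
          _ ≤ (X.NN j : ℝ) ^ X.ff j T * X.wT j T := by
            apply mul_le_mul (pow_le_pow_right₀ hNN1 hff) hwT (X.wT_pos j S).le (by positivity)
      rw [hchoose]
      unfold stepSc
      rw [hcount]
      have h3 : (X.NN j : ℝ) * capOf c G (X.wS j) T ≤ ν * capOf c G (X.wS j) S := by
        unfold capOf
        have h4 := hw S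
        have h5 := hw T
        have h6 := hX.pos S
        have h7 := hX.pos T
        have h8 := hX.nu0
        calc (X.NN j : ℝ) * (c * G T / X.wS j T) ≤
            (X.NN j : ℝ) * (c * (ν * G S) / (X.NN j * X.wS j S)) := by
              apply mul_le_mul_of_nonneg_left _ hNN.le
              apply div_le_div₀ (by positivity) (mul_le_mul_of_nonneg_left hslope hc.le)
                (by positivity) hwS
          _ = ν * (c * G S / X.wS j S) := by
              field_simp
      calc (X.NN j : ℝ) * (capOf c G (X.wS j) T * (X.NN j : ℝ) ^ X.stepSn F Z S) =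
          ((X.NN j : ℝ) * capOf c G (X.wS j) T) * (X.NN j : ℝ) ^ X.stepSn F Z S := by ring
        _ ≤ (ν * capOf c G (X.wS j) S) * (X.NN j : ℝ) ^ X.stepSn F Z S :=
          mul_le_mul_of_nonneg_right h3 (by positivity)
        _ = ν * (capOf c G (X.wS j) S * (X.NN j : ℝ) ^ X.stepSn F Z S) := by ring
  obtain ⟨W, hW, hPP⟩ := select_one h1b zero_le_one hX.nu0 X.m (by omega) (X.dset δ₀)
    (by rw [hcd]; exact X.hz j hj) hA hSl
  rw [mem_powersetCard] at hW
  obtain ⟨hW1, hW2⟩ := hW
  refine ⟨W, select ((X.dset δ₀).card.choose X.m) (X.dset δ₀) W φ1, hW1, hW2, ?_, ?_, ?_⟩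
  · intro A
    unfold select
    have h2 := h1b.nonneg A
    split_ifs
    · positivity
    · exact h2
    · exact le_rfl
  · intro A h2
    unfold select at h2
    rw [stepS_inter_dset] at h2
    split_ifs at h2 with h3 h4
    · exact ⟨hφ1 A fun h5 => h2 (by rw [h5, mul_zero]), Or.inr h3⟩
    · exact ⟨hφ1 A h2, Or.inl h4⟩
    · exact absurd rfl h2
  · have herr : ∑ Y' ∈ (X.dset δ₀).powersetCard X.m, mass φ1 Y' ≤ c * E * (1 / 2) ^ (X.y j) := by
      have h2 : ∀ Y' ∈ (X.dset δ₀).powersetCard X.m,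
          mass φ1 Y' ≤ c * E * (1 / 2) ^ (X.y j) / X.NN j := by
        intro Y' hY'
        rw [mem_powersetCard] at hY'
        obtain ⟨hY1, hY2⟩ := hY'
        have hE := hX.E1
        by_cases hex : ∃ A, φ1 A ≠ 0 ∧ Y' ⊆ A
        · obtain ⟨A, hA1, hA2⟩ := hex
          have hne : Y'.Nonempty := card_pos.1 (by omega)
          have hY0 : Y' ∈ X.SS0 := X.mem_SS0_of_adm (hadm A hA1).1 hA2 hne
          have hYS : Y' ∈ X.stepSs j Y F Z := by
            unfold stepSs SSt
            simp only [mem_filter]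
            refine ⟨⟨hY0, fun δ h3 => Or.inl ?_⟩, fun δ h3 => Or.inl ?_⟩
            · apply X.stepS_part_of_sub_ne hY1
              intro h4
              rw [← h4, hδ] at h3
              exact lt_irrefl _ h3
            · exact X.stepS_part_of_sub_ne hY1 (hneF δ h3)
          have h3 := mass_le_cap h1b zero_le_one hYS
          rw [one_mul] at h3
          refine h3.trans ?_
          have h4 : X.stepSn F Z Y' = 0 := by
            unfold stepSn
            rw [card_eq_zero, filter_eq_empty_iff]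
            intro δ h5 h6
            rw [X.stepS_part_of_sub_ne hY1 (hneF δ h5)] at h6
            have h7 := (hZ δ h5).2
            rw [← h6, card_empty] at h7
            omega
          unfold stepSc
          rw [h4, pow_zero, mul_one]
          unfold capOf
          have hff : X.ff j Y' = 1 := by
            unfold ff
            rw [card_eq_one]
            refine ⟨δ₀, ?_⟩
            ext δ
            rw [mem_filter, mem_singleton]
            constructor
            · rintro ⟨-, h5, h6⟩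
              by_contra h7
              rw [X.stepS_part_of_sub_ne hY1 (fun h8 => h7 h8.symm), card_empty, hbs] at h6
              omega
            · rintro rfl
              exact ⟨mem_univ _, hδ, by rw [X.stepS_part_of_sub hY1, hY2, hbs]⟩
          rw [X.wS_eq, hff, pow_one]
          have h5 := X.cap_bound hX hc (j := j + 1) (by omega) hY0 ?_ (by omega)
            (X.prod_le_wT hj Y')
          · rw [X.pc_block hδ hY1 hne] at h5
            calc c * G Y' / (X.NN j * X.wT j Y') = (c * G Y' / X.wT j Y') / X.NN j := by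
                  rw [div_div, mul_comm (X.NN j : ℝ)]
              _ ≤ c * E * (1 / 2) ^ (X.y j) / X.NN j := div_le_div_of_nonneg_right h5 hNN.le
          · intro δ h6
            by_cases h7 : δ₀ = δ
            · right
              rw [← h7, X.stepS_part_of_sub hY1, hY2, hδ, hbs]
            · left
              rw [X.stepS_part_of_sub_ne hY1 h7, card_empty]
        · have h3 : mass φ1 Y' = 0 := by
            unfold mass
            apply sum_eq_zero
            intro A hA'
            by_contra h4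
            exact hex ⟨A, h4, (mem_filter.1 hA').2⟩
          rw [h3]
          positivity
      refine (sum_le_sum h2).trans ?_
      rw [sum_const, card_powersetCard, hchoose, nsmul_eq_mul]
      rw [mul_div_cancel₀ _ hNN.ne']
    have hSS : (X.stepSs j Y F Z).filter (fun S => S ∩ X.dset δ₀ = ∅ ∨ S ∩ X.dset δ₀ = W) =
        X.stepSs j Y (insert δ₀ F) (Function.update Z δ₀ W) := by
      ext S
      unfold stepSs
      simp only [mem_filter, mem_insert, stepS_inter_dset]
      constructor
      · rintro ⟨⟨h2, h3⟩, h4⟩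
        refine ⟨h2, ?_⟩
        rintro δ (rfl | h5)
        · rw [Function.update_self]
          exact h4
        · rw [Function.update_of_ne (hneF δ h5).symm]
          exact h3 δ h5
      · rintro ⟨h2, h3⟩
        refine ⟨⟨h2, fun δ h5 => ?_⟩, ?_⟩
        · have h6 := h3 δ (Or.inr h5)
          rwa [Function.update_of_ne (hneF δ h5).symm] at h6
        · have h6 := h3 δ₀ (Or.inl rfl)
          rwa [Function.update_self] at h6
    have hC : selectCap ((X.dset δ₀).card.choose X.m : ℝ) (X.dset δ₀) W (X.stepSc c G j F Z) =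
        X.stepSc c G j (insert δ₀ F) (Function.update Z δ₀ W) := by
      funext S
      unfold selectCap stepSc
      rw [stepS_inter_dset, hchoose]
      have h2 : (F.filter (fun δ => X.part S δ = Function.update Z δ₀ W δ)) =
          F.filter (fun δ => X.part S δ = Z δ) := by
        apply filter_congr
        intro δ h3
        rw [Function.update_of_ne (hneF δ h3).symm]
      have h3 : X.stepSn (insert δ₀ F) (Function.update Z δ₀ W) S =
          X.stepSn F Z S + if X.part S δ₀ = W then 1 else 0 := by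
        unfold stepSn
        rw [filter_insert, Function.update_self]
        split_ifs with h4
        · rw [card_insert_of_notMem, h2]
          rw [mem_filter]
          exact fun h5 => hδF h5.1
        · rw [h2, add_zero]
      rw [h3]
      split_ifs with h4
      · rw [pow_succ]
        ring
      · rw [add_zero]
    rw [hSS, hC] at hPP
    have h2 : ν * 1 * ∑ Y' ∈ (X.dset δ₀).powersetCard X.m, mass φ1 Y' ≤
        ν * (c * E * (1 / 2) ^ (X.y j)) := by
      rw [mul_one]
      exact mul_le_mul_of_nonneg_left herr hX.nu0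
    linarith

/-- All selections. -/
theorem stepS_all {n : ℕ} (emb : V ↪ Fin n) {G : Finset V → ℝ} {ν E : ℝ} {zm D : ℕ}
    (hX : X.Sz G ν E zm D) {c : ℝ} (hc : 0 < c) {j : ℕ} (hj : j < X.R) {Y : Δ → Finset V}
    {φ : Finset V → ℝ} {M B : Finset (Sym2 (Fin n))} (hI : X.Inv emb j Y (X.fpS j) φ M B)
    (F : Finset Δ) (hF : ∀ δ ∈ F, X.gen δ = j) :
    ∃ (Z : Δ → Finset V) (φ' : Finset V → ℝ), (∀ A, 0 ≤ φ' A) ∧ (∀ A, φ' A ≠ 0 → φ A ≠ 0) ∧
      (∀ δ, δ ∉ F → Z δ = Y δ) ∧ (∀ δ ∈ F, Z δ ⊆ X.dset δ ∧ (Z δ).card = X.m) ∧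
      (∀ A, φ' A ≠ 0 → ∀ δ ∈ F, X.part A δ = ∅ ∨ X.part A δ = Z δ) ∧
      PP (X.SSt j Y) φ (capOf c G (X.wS j)) - F.card * (ν * (c * E * (1 / 2) ^ (X.y j))) ≤
        PP (X.stepSs j Y F Z) φ' (X.stepSc c G j F Z) := by
  induction F using Finset.induction_on with
  | empty =>
    refine ⟨Y, φ, hI.nonneg, fun A h => h, fun _ _ => rfl, ?_, ?_, ?_⟩
    · intro δ h
      exact absurd h (notMem_empty δ)
    · intro A _ δ h
      exact absurd h (notMem_empty δ)
    · have h1 : X.stepSs j Y ∅ Y = X.SSt j Y := by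
        unfold stepSs
        rw [filter_eq_self]
        intro S _ δ h
        exact absurd h (notMem_empty δ)
      have h2 : X.stepSc c G j ∅ Y = capOf c G (X.wS j) := by
        funext S
        unfold stepSc stepSn
        simp
      rw [h1, h2, card_empty]
      simp
  | insert δ₀ F hδ₀ ih =>
    obtain ⟨Z, φ', h1, h2, h3, h4, h5, h6⟩ := ih fun δ h => hF δ (mem_insert_of_mem h)
    obtain ⟨W, φ'', g1, g2, g3, g4, g5⟩ := X.stepS_one emb hX hc hj hI F Z φ' h1 h2
      (fun δ h => hF δ (mem_insert_of_mem h)) h4 h5 (hF δ₀ (mem_insert_self _ _)) hδ₀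
    have hne : ∀ δ ∈ F, δ ≠ δ₀ := fun δ h h' => hδ₀ (h' ▸ h)
    refine ⟨Function.update Z δ₀ W, φ'', g3, fun A h => h2 A (g4 A h).1, ?_, ?_, ?_, ?_⟩
    · intro δ h
      rw [mem_insert, not_or] at h
      rw [Function.update_of_ne h.1]
      exact h3 δ h.2
    · intro δ h
      rw [mem_insert] at h
      rcases h with rfl | h
      · rw [Function.update_self]
        exact ⟨g1, g2⟩
      · rw [Function.update_of_ne (hne δ h)]
        exact h4 δ h
    · intro A hA δ h
      rw [mem_insert] at h
      rcases h with rfl | h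
      · rw [Function.update_self]
        exact (g4 A hA).2
      · rw [Function.update_of_ne (hne δ h)]
        exact h5 A (g4 A hA).1 δ h
    · rw [card_insert_of_notMem hδ₀]
      push_cast
      linarith

/-- CH-F -/
theorem stepS {n : ℕ} (emb : V ↪ Fin n) {G : Finset V → ℝ} {ν E : ℝ} {zm D : ℕ}
    (hX : X.Sz G ν E zm D) {c : ℝ} (hc : 0 < c) {j : ℕ} (hj : j < X.R) {Y : Δ → Finset V}
    {φ : Finset V → ℝ} {M B : Finset (Sym2 (Fin n))} (hI : X.Inv emb j Y (X.fpS j) φ M B) :
    ∃ (Y' : Δ → Finset V) (φ' : Finset V → ℝ), X.Inv emb (j + 1) Y' (X.fpS j) φ' M B ∧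
      PP (X.SSt j Y) φ (capOf c G (X.wS j)) - c * err ν E zm D ≤
        PP (X.SSt (j + 1) Y') φ' (capOf c G (X.wT j)) := by
  have hm := X.hm
  have hbs : X.bs j = X.m := if_pos hj
  obtain ⟨Z, φ', h1, h2, h3, h4, h5, h6⟩ := X.stepS_all emb hX hc hj hI
    (univ.filter (fun δ => X.gen δ = j)) fun δ h => (mem_filter.1 h).2
  have hF : ∀ δ, δ ∈ univ.filter (fun δ => X.gen δ = j) ↔ X.gen δ = j := fun δ => by simp
  have hZY : ∀ δ, X.gen δ < j → Z δ = Y δ := by
    intro δ h
    apply h3
    rw [hF]
    omega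
  have hsel : ∀ S, X.Sel (j + 1) Z S ↔ X.Sel j Y S ∧
      ∀ δ ∈ univ.filter (fun δ => X.gen δ = j), X.part S δ = ∅ ∨ X.part S δ = Z δ := by
    intro S
    unfold Sel
    constructor
    · intro h
      refine ⟨fun δ hδ => ?_, fun δ hδ => ?_⟩
      · rw [← hZY δ hδ]
        exact h δ (by omega)
      · rw [hF] at hδ
        exact h δ (by omega)
    · rintro ⟨h7, h8⟩ δ hδ
      rcases Nat.lt_succ_iff_lt_or_eq.1 hδ with h9 | h9
      · rw [hZY δ h9]
        exact h7 δ h9
      · exact h8 δ ((hF δ).2 h9)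
  have hSS : X.stepSs j Y (univ.filter (fun δ => X.gen δ = j)) Z = X.SSt (j + 1) Z := by
    ext S
    unfold stepSs SSt
    simp only [mem_filter]
    rw [hsel]
    simp only [mem_filter]
    tauto
  refine ⟨Z, φ', ⟨h1, ?_, ?_, hI.disj, hI.sub, ?_, ?_⟩, ?_⟩
  · intro A hA
    obtain ⟨h7, h8⟩ := hI.supp A (h2 A hA)
    exact ⟨h7, (hsel A).2 ⟨h8, h5 A hA⟩⟩
  · intro A hA
    exact hI.alive A (h2 A hA)
  · intro δ hδ
    rcases Nat.lt_succ_iff_lt_or_eq.1 hδ with h9 | h9
    · rw [hZY δ h9]
      exact hI.ycard δ h9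
    · exact h4 δ ((hF δ).2 h9)
  · intro A hA
    exact hI.fin A (h2 A hA)
  · rw [hSS] at h6
    have hPP : PP (X.SSt (j + 1) Z) φ'
        (X.stepSc c G j (univ.filter (fun δ => X.gen δ = j)) Z) =
        PP (X.SSt (j + 1) Z) φ' (capOf c G (X.wT j)) := by
      unfold PP
      congr 1
      apply sum_congr rfl
      intro S hS
      congr 1
      unfold SSt at hS
      rw [mem_filter, hsel] at hS
      obtain ⟨-, -, hS⟩ := hS
      have h7 : X.stepSn (univ.filter (fun δ => X.gen δ = j)) Z S = X.ff j S := by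
        unfold stepSn ff
        congr 1
        rw [filter_filter]
        apply filter_congr
        intro δ _
        constructor
        · rintro ⟨h8, h9⟩
          refine ⟨h8, ?_⟩
          rw [h9, (h4 δ ((hF δ).2 h8)).2, hbs]
        · rintro ⟨h8, h9⟩
          refine ⟨h8, ?_⟩
          rcases hS δ ((hF δ).2 h8) with h10 | h10
          · rw [h10, card_empty, hbs] at h9
            omega
          · exact h10
      unfold stepSc capOf
      rw [h7, X.wS_eq]
      have hNN : (0 : ℝ) < X.NN j := by exact_mod_cast X.NN_pos j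
      have hwT := X.wT_pos j S
      have h8 : (0 : ℝ) < (X.NN j : ℝ) ^ X.ff j S := by positivity
      field_simp
    rw [hPP, X.card_gen j hj.le] at h6
    have hE := hX.E1
    have h7 : ((2 ^ X.y j : ℕ) : ℝ) * (ν * (c * E * (1 / 2) ^ (X.y j))) = ν * (c * E) := by
      push_cast
      calc (2 : ℝ) ^ X.y j * (ν * (c * E * (1 / 2) ^ (X.y j))) =
          ν * (c * E) * (2 * (1 / 2)) ^ (X.y j) := by rw [mul_pow]; ring
        _ = ν * (c * E) := by norm_num
    rw [h7] at h6
    have h8 : ν * (c * E) ≤ c * err ν E zm D := by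
      unfold err
      have h9 : (0 : ℝ) ≤ (1 / 2) ^ zm := by positivity
      have h10 : (0 : ℝ) ≤ (1 / 2) ^ D := by positivity
      have h11 : 0 ≤ c * E := by positivity
      nlinarith
    linarith

end Setup

end Pool.Agent.Helper75.CG
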